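import Mathlib
import Pool.Agent.H17.Asc2
import Pool.Agent.H17.Tz

namespace Pool.Agent.Results.MP_36ad39_gt.Ex

open Set Topology TopologicalSpace

universe u v

/-- `𝒩` is a k-network of `X`. -/
def IsKNetwork {X : Type*} [TopologicalSpace X] (𝒩 : Set (Set X)) : Prop :=
  ∀ K U : Set X, IsCompact K → IsOpen U → K ⊆ U →
    ∃ ℱ : Set (Set X), ℱ.Finite ∧ ℱ ⊆ 𝒩 ∧ K ⊆ ⋃₀ ℱ ∧ ⋃₀ ℱ ⊆ U

/-- Regular with a sigma-locally finite k-network. -/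
def IsAlephSpace (X : Type*) [TopologicalSpace X] : Prop :=
  RegularSpace X ∧ ∃ 𝒩 : ℕ → Set (Set X),
    (∀ n, LocallyFinite fun S : 𝒩 n => (S : Set X)) ∧ IsKNetwork (⋃ n, 𝒩 n)

/-- Every compact set of `C(X, ℝ)` (compact-open topology) has jointly continuous evaluation. -/
def IsAscoli (X : Type*) [TopologicalSpace X] : Prop :=
  ∀ 𝒦 : Set C(X, ℝ), IsCompact 𝒦 → Continuous fun p : 𝒦 × X => (p.1 : C(X, ℝ)) p.2

open Pool.Agent.H17 Pool.Agent.H17.Tz in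
theorem result : ∃ (X : Type) (_ : TopologicalSpace X), T35Space X ∧ ParacompactSpace X ∧
    SequentialSpace X ∧ IsAscoli X ∧ IsAlephSpace X ∧
    ∀ (Z : Type u) [TopologicalSpace Z] [MetrizableSpace Z] [SeparableSpace Z]
      (Y : Type v) [TopologicalSpace Y] [MetrizableSpace Y],
      ¬ ∃ e : X → C(Z, Y), IsEmbedding e := by
  classical
  have c1 : ∀ Z, CompletelyRegularSpace (T Z) := fun Z =>
    CompletelyRegularSpace.of_isTopologicalBasis_clopens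
      (isTopologicalBasis_of_isOpen_of_nhds (fun _ h => h.isOpen) fun t U ht hU => by
        obtain ⟨V, h1, h2, h3⟩ := clop t U ht hU
        exact ⟨V, h1, h2, h3⟩)
  have c2 : ∀ Z, T35Space (T Z) := fun Z => {}
  have c3 : CompletelyRegularSpace (Σ Z, T Z) :=
    CompletelyRegularSpace.of_isTopologicalBasis_clopens
      (isTopologicalBasis_of_isOpen_of_nhds (fun _ h => h.isOpen) fun t U ht hU => by
        obtain ⟨Z, t⟩ := t
        obtain ⟨V, h1, h2, h3⟩ := clop t (Sigma.mk Z ⁻¹' U) ht (hU.preimage continuous_sigmaMk)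
        exact ⟨Sigma.mk Z '' V, ⟨isClosedMap_sigmaMk _ h1.1, isOpenMap_sigmaMk _ h1.2⟩,
          ⟨t, h2, rfl⟩, image_subset_iff.2 h3⟩)
  have c4 : T35Space (Σ Z, T Z) := {}
  have c5 : ∀ Z, ParacompactSpace (T Z) := fun Z => by
    have : Countable (T Z) := inferInstanceAs (Countable (Option ℕ))
    exact Asc2.para _
  have lf : ∀ (Z : Set Cn) (t : T Z) {W : Set (T Z)}, W ∈ 𝓝 t →
      Sigma.mk Z '' W ∈ 𝓝 (⟨Z, t⟩ : Σ Z, T Z) := fun Z t W hW =>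
    isOpenMap_sigmaMk.image_mem_nhds hW
  refine ⟨Σ Z, T Z, inferInstance, c4, ⟨fun α s so sc => ?_⟩, inferInstance,
    fun 𝒦 h => ascoli _ 𝒦 h, ⟨inferInstance, ?_⟩, ?_⟩
  · have h1 := fun Z : Set Cn => precise_refinement (fun a => Sigma.mk Z ⁻¹' s a)
      (fun a => (so a).preimage continuous_sigmaMk) (by rw [← preimage_iUnion, sc, preimage_univ])
    choose w w1 w2 w3 w4 using h1
    refine ⟨Set Cn × α, fun q => Sigma.mk q.1 '' w q.1 q.2,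
      fun q => isOpenMap_sigmaMk _ (w1 _ _), ?_, ?_, fun q => ⟨q.2, image_subset_iff.2 (w4 _ _)⟩⟩
    · rw [eq_univ_iff_forall]
      rintro ⟨Z, t⟩
      obtain ⟨a, ha⟩ := mem_iUnion.1 (eq_univ_iff_forall.1 (w2 Z) t)
      exact mem_iUnion.2 ⟨(Z, a), t, ha, rfl⟩
    · rintro ⟨Z, t⟩
      obtain ⟨W, hW, hf⟩ := w3 Z t
      refine ⟨_, lf Z t hW, (hf.image (Prod.mk Z)).subset ?_⟩
      rintro ⟨Z', a⟩ ⟨_, ⟨y, hy, rfl⟩, y', hy', e⟩
      cases e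
      exact ⟨a, ⟨y, hy, hy'⟩, rfl⟩
  · obtain ⟨en, hen⟩ := exists_surjective_nat J
    refine ⟨fun n => range fun Z => Sigma.mk Z '' N Z (en n), fun n => ?_, fun K U hK hU KU => ?_⟩
    · rintro ⟨Z, t⟩
      refine ⟨_, lf Z t Filter.univ_mem,
        (finite_singleton ⟨Sigma.mk Z '' N Z (en n), Z, rfl⟩).subset ?_⟩
      rintro ⟨_, Z', rfl⟩ ⟨_, ⟨y, hy, rfl⟩, y', -, e⟩
      cases e
      rfl
    · obtain ⟨s, t, s1, t1, rfl⟩ := hK.sigma_exists_finite_sigma_eq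
      have h1 : ∀ Z ∈ s, ∃ r : Set J, r.Finite ∧ t Z ⊆ ⋃ j ∈ r, N Z j ∧
          ∀ j ∈ r, N Z j ⊆ Sigma.mk Z ⁻¹' U := fun Z hZ =>
        knet _ _ (t1 Z) (hU.preimage continuous_sigmaMk) fun y hy => KU ⟨hZ, hy⟩
      choose! r r1 r2 r3 using h1
      refine ⟨⋃ Z ∈ s, (fun j => Sigma.mk Z '' N Z j) '' r Z,
        s1.biUnion fun Z hZ => (r1 Z hZ).image _, ?_, ?_, ?_⟩
      · intro S hS
        obtain ⟨Z, -, j, -, rfl⟩ := mem_iUnion₂.1 hS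
        obtain ⟨n, rfl⟩ := hen j
        exact mem_iUnion.2 ⟨n, Z, rfl⟩
      · rintro ⟨Z, y⟩ ⟨hZ, hy⟩
        obtain ⟨j, hj, hyj⟩ := mem_iUnion₂.1 (r2 Z hZ hy)
        exact ⟨_, mem_iUnion₂.2 ⟨Z, hZ, j, hj, rfl⟩, y, hyj, rfl⟩
      · rintro y ⟨S, hS, hy⟩
        obtain ⟨Z, hZ, j, hj, rfl⟩ := mem_iUnion₂.1 hS
        exact image_subset_iff.2 (r3 Z hZ j hj) hy
  · rintro Z0 _ _ _ Y _ _ ⟨e, he⟩
    exact no_emb Z0 Y (fun Z t => e ⟨Z, t⟩) fun Z =>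
      he.isInducing.comp IsEmbedding.sigmaMk.isInducing

end Pool.Agent.Results.MP_36ad39_gt.Ex
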